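import Pool.Agent.H52.MG.Basic
import Pool.Agent.H52.MG.Targets

/-!
# Module MTR: every class structure falls under one of the cases
-/

set_option autoImplicit false

noncomputable section

open Classical Module
open scoped Matrix

namespace Pool.Agent.H14.MG

open Pool.Agent.H52.MG

/-- images under functions with the same fibres have the same size -/
lemma card_image_congr' {K L L' : Type} [Fintype K] (Z : Finset K) (D : K → L) (Q : K → L')
    (h : ∀ x y, D x = D y ↔ Q x = Q y) : (Z.image D).card = (Z.image Q).card := by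
  have h1 := pt_congr (K := Z) (d := fun z => D z.1) (d' := fun z => Q z.1) (fun u w => h _ _)
  unfold pt at h1
  have e1 : Finset.univ.image (fun z : Z => D z.1) = Z.image D := by
    ext l
    simp
  have e2 : Finset.univ.image (fun z : Z => Q z.1) = Z.image Q := by
    ext l
    simp
  rw [e1, e2] at h1
  exact h1

section
variable {V : Type} [Fintype V] {G : SimpleGraph V} {c : V → V}

/-- two leaving pairs of a class of degree two are all of them -/
lemma leave_two {x₁ x₂ y z : V} (h2 : dgc G c x₁ = 2) (hc : c x₂ = c x₁) (hy : c y ≠ c x₁)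
    (hz : c z ≠ c x₁) (e1 : G.Adj x₁ y) (e2 : G.Adj x₂ z) (hyz : y ≠ z) :
    ∀ u w, c u = c x₁ → c w ≠ c x₁ → G.Adj u w → (u = x₁ ∧ w = y) ∨ (u = x₂ ∧ w = z) := by
  intro u w hu hw huw
  unfold dgc at h2
  have hsub : ({(x₁, y), (x₂, z)} : Finset (V × V)) ⊆ (Finset.univ : Finset (V × V)).filter
      (fun x => c x.1 = c x₁ ∧ c x.2 ≠ c x₁ ∧ G.Adj x.1 x.2) := by
    intro x hx
    simp only [Finset.mem_insert, Finset.mem_singleton] at hx
    rw [Finset.mem_filter]
    rcases hx with rfl | rfl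
    · exact ⟨Finset.mem_univ _, rfl, hy, e1⟩
    · exact ⟨Finset.mem_univ _, hc, hz, e2⟩
  have hcard : ({(x₁, y), (x₂, z)} : Finset (V × V)).card = 2 := by
    rw [Finset.card_pair]
    intro e
    exact hyz (congrArg Prod.snd e)
  have heq := Finset.eq_of_subset_of_card_le hsub (by rw [h2, hcard])
  have hm : (u, w) ∈ (Finset.univ : Finset (V × V)).filter
      (fun x => c x.1 = c x₁ ∧ c x.2 ≠ c x₁ ∧ G.Adj x.1 x.2) :=
    Finset.mem_filter.mpr ⟨Finset.mem_univ _, hu, hw, huw⟩
  rw [← heq] at hm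
  simp only [Finset.mem_insert, Finset.mem_singleton, Prod.mk.injEq] at hm
  exact hm

lemma dgc_congr {a b : V} (h : c a = c b) : dgc G c a = dgc G c b := by
  unfold dgc; rw [h]

/-- the data of the quotient -/
structure Quo (G : SimpleGraph V) (c : V → V) {K : Type} [Fintype K] (m : K → K → ℕ)
    (π : V → K) : Prop where
  sur : Function.Surjective π
  iff : ∀ u w, π u = π w ↔ c u = c w
  sym : MSym m
  card : Fintype.card K = pt c
  mu : ∀ u w, c u ≠ c w → m (π u) (π w) = mu G c u w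
  deg : ∀ v, mdeg m (π v) = dgc G c v
  cr : ∀ (L : Type) (Q : K → L), cr2 G (fun v => Q (π v)) = me2 m Q
  crZ : ∀ (L : Type) (Q : K → L) (Z : Finset K),
      cr2 (delS G {v | π v ∉ Z}) (fun v => Q (π v)) =
        ∑ x ∈ Z, ∑ y ∈ Z, if Q x ≠ Q y then m x y else 0

variable {K : Type} [Fintype K] {m : K → K → ℕ} {π : V → K}

lemma Quo.pt_comp (h : Quo G c m π) {L : Type} (Q : K → L) : pt (fun v => Q (π v)) = pt Q := by
  unfold pt
  congr 1
  ext l
  simp only [Finset.mem_image, Finset.mem_univ, true_and]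
  constructor
  · rintro ⟨v, rfl⟩; exact ⟨π v, rfl⟩
  · rintro ⟨x, rfl⟩
    obtain ⟨v, rfl⟩ := h.sur x
    exact ⟨v, rfl⟩

lemma Quo.s2_comp (h : Quo G c m π) {L : Type} (Q : K → L) :
    s2 G (fun v => Q (π v)) = ms2 m Q := by
  unfold s2 ms2
  rw [h.pt_comp, h.cr]

/-- coarser colourings factor through the quotient -/
lemma Quo.factor (h : Quo G c m π) {L : Type} (d : V → L) (hd : Coarse c d) :
    ∃ D : K → L, ∀ v, d v = D (π v) := by
  refine ⟨fun x => d (Function.surjInv h.sur x), fun v => ?_⟩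
  apply hd
  rw [← h.iff]
  exact (Function.surjInv_eq h.sur (π v)).symm

lemma Quo.factor' (h : Quo G c m π) {L : Type} (d : V → L) (hd : Coarse c d) :
    ∃ Q : K → K, (∀ u w, Q (π u) = Q (π w) ↔ d u = d w) ∧ ms2 m Q = s2 G d ∧ pt Q = pt d := by
  obtain ⟨D, hD⟩ := h.factor d hd
  obtain ⟨Q, hQ⟩ := exists_relabel D
  have h1 : ∀ u w, Q (π u) = Q (π w) ↔ d u = d w := by
    intro u w; rw [hQ, hD u, hD w]
  refine ⟨Q, h1, ?_, ?_⟩
  · rw [← h.s2_comp]; exact s2_congr G h1
  · rw [← h.pt_comp]; exact pt_congr h1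

/-- edges of the quotient come from edges -/
lemma Quo.edge (h : Quo G c m π) {x y : K} (hxy : 0 < m x y) :
    ∃ u w, π u = x ∧ π w = y ∧ c u ≠ c w ∧ G.Adj u w := by
  have hne : x ≠ y := by
    intro e
    rw [e, h.sym.2] at hxy
    exact lt_irrefl _ hxy
  obtain ⟨u0, rfl⟩ := h.sur x
  obtain ⟨w0, rfl⟩ := h.sur y
  have hc : c u0 ≠ c w0 := fun e => hne ((h.iff _ _).mpr e)
  rw [h.mu _ _ hc] at hxy
  unfold Pool.Agent.H52.MG.mu at hxy
  obtain ⟨⟨u, w⟩, hm⟩ := Finset.card_pos.mp hxy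
  simp only [Finset.mem_filter, Finset.mem_univ, true_and] at hm
  exact ⟨u, w, (h.iff _ _).mpr hm.1, (h.iff _ _).mpr hm.2.1, by rw [hm.1, hm.2.1]; exact hc,
    hm.2.2⟩

end

theorem mtr (hMTC : T_MTC) (hQUO : T_QUO) (hRISO : T_RISO) (hRPEN : T_RPEN) (hRDEL : T_RDEL)
    (hRRED : T_RRED) (hRCHN : T_RCHN) : T_MTR := by
  intro V _ G c k hpt hCnd
  obtain ⟨K, _, m, π, q1, q2, q3, q4, q5, q6, q7, q8, -⟩ := hQUO V G c
  have h : Quo G c m π := ⟨q1, q2, q3, q4, q5, q6, q7, q8⟩
  have hMS : ∀ Q : K → K, -(2 * (k : ℤ)) ≤ ms2 m Q := by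
    intro Q
    rw [← h.s2_comp]
    refine Cnd_all hCnd _ ?_
    intro u w e
    show Q (π u) = Q (π w)
    rw [(h.iff _ _).mpr e]
  have h2 : 2 ≤ Fintype.card K := by rw [h.card]; exact hpt
  have other : ∀ a, ∃ b, c a ≠ c b := by
    intro a
    by_contra hn
    push Not at hn
    have : pt c ≤ 1 := by
      unfold pt
      rw [Finset.card_le_one]
      intro l hl l' hl'
      rw [Finset.mem_image] at hl hl'
      obtain ⟨x, -, rfl⟩ := hl
      obtain ⟨y, -, rfl⟩ := hl'
      rw [← hn x, ← hn y]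
    omega
  rcases hMTC K m k h.sym h2 hMS with hA | hA | hA | hA | hA | hA | hA
  · -- degree at most one
    obtain ⟨x, hx⟩ := hA
    obtain ⟨a, rfl⟩ := h.sur x
    rw [h.deg] at hx
    rcases Nat.eq_zero_or_pos (dgc G c a) with h0 | h0
    · obtain ⟨b, hb⟩ := other a
      obtain ⟨k6, hk⟩ := hRISO V G c a b k hb h0 hCnd
      exact Or.inl ⟨a, b, hb, k6, hk⟩
    · have h1 : dgc G c a = 1 := le_antisymm hx h0
      have h0' := h0
      unfold dgc at h0'
      obtain ⟨⟨x1, x2⟩, hm⟩ := Finset.card_pos.mp h0'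
      simp only [Finset.mem_filter, Finset.mem_univ, true_and] at hm
      obtain ⟨hm1, hm2, hm3⟩ := hm
      have hne : c x1 ≠ c x2 := by rw [hm1]; exact hm2.symm
      obtain ⟨k1, hk⟩ := hRPEN V G c x1 x2 k hne hm3 (by rw [dgc_congr hm1]; exact h1) hCnd
      exact Or.inr (Or.inl ⟨x1, x2, hne, hm3, k1, hk⟩)
  · -- a rigid set
    obtain ⟨Z, hZ2, hZK, hal⟩ := hA
    refine Or.inr (Or.inr (Or.inl ?_))
    obtain ⟨x, hx, y, hy, hxy⟩ := Finset.one_lt_card.mp (lt_of_lt_of_le one_lt_two hZ2)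
    obtain ⟨a, rfl⟩ := h.sur x
    obtain ⟨b, rfl⟩ := h.sur y
    have hz : ∃ z, z ∉ Z := by
      by_contra hn
      push Not at hn
      have : Z = Finset.univ := Finset.eq_univ_iff_forall.mpr hn
      rw [this, Finset.card_univ] at hZK
      exact lt_irrefl _ hZK
    obtain ⟨z, hz⟩ := hz
    obtain ⟨e, rfl⟩ := h.sur z
    have hclu : ClU c {v | π v ∈ Z} := by
      intro u w huw hu
      show π w ∈ Z
      rw [← (h.iff u w).mpr huw]
      exact hu
    refine ⟨{v | π v ∈ Z}, a, b, e, hclu, hx, hy, fun k => hxy ((h.iff _ _).mpr k), hz, ?_⟩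
    intro d hd
    have hda : ∀ v, π v ∉ Z → d v = d a := by
      intro v hv
      apply hd
      have h1 : v ∉ ({v | π v ∈ Z} : Set V) := hv
      have h2 : a ∈ ({v | π v ∈ Z} : Set V) := hx
      simp only [h1, h2, if_true, if_false]
    have hdc : Coarse c d := by
      intro u w huw
      apply hd
      by_cases h1 : u ∈ ({v | π v ∈ Z} : Set V)
      · have h2 := hclu u w huw h1
        simp only [h1, h2, if_true]
        exact huw
      · have h2 : w ∉ ({v | π v ∈ Z} : Set V) := fun k => h1 (hclu w u huw.symm k)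
        simp only [h1, h2, if_false]
    obtain ⟨D, hD⟩ := h.factor d hdc
    obtain ⟨Q, hQ⟩ := exists_relabel D
    have hs := hal Q
    have hcr := h.crZ V D Z
    have hcompl : ({v | π v ∈ Z} : Set V)ᶜ = {v | π v ∉ Z} := rfl
    have hdD : d = fun v => D (π v) := funext hD
    have hsum : (∑ x ∈ Z, ∑ y ∈ Z, if D x ≠ D y then m x y else 0) =
        ∑ x ∈ Z, ∑ y ∈ Z, if Q x ≠ Q y then m x y else 0 := by
      refine Finset.sum_congr rfl fun x _ => Finset.sum_congr rfl fun y _ => ?_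
      simp only [ne_eq, hQ]
    have hptd : pt d = (Z.image Q).card := by
      rw [← card_image_congr' Z D Q (fun x y => (hQ x y).symm)]
      unfold pt
      congr 1
      ext l
      simp only [Finset.mem_image, Finset.mem_univ, true_and]
      constructor
      · rintro ⟨v, rfl⟩
        by_cases hv : π v ∈ Z
        · exact ⟨π v, hv, (hD v).symm⟩
        · exact ⟨π a, hx, by rw [hda v hv, hD a]⟩
      · rintro ⟨x, -, rfl⟩
        obtain ⟨v, rfl⟩ := h.sur x
        exact ⟨v, hD v⟩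
    unfold al at hs
    unfold s2
    rw [hcompl, hptd]
    have hcr' : cr2 (delS G {v | π v ∉ Z}) d =
        ∑ x ∈ Z, ∑ y ∈ Z, if Q x ≠ Q y then m x y else 0 := by
      rw [hdD, hcr, hsum]
    rw [hcr']
    simpa using hs
  · -- a removable edge
    obtain ⟨x, y, hxy, hQ⟩ := hA
    obtain ⟨u, w, rfl, rfl, huw, hadj⟩ := h.edge hxy
    refine Or.inr (Or.inr (Or.inr (Or.inl ⟨u, w, huw, hadj, ?_⟩)))
    refine hRDEL V G c u w k hadj ?_ hCnd
    intro d hd hne
    obtain ⟨Q, hQ1, hQ2, -⟩ := h.factor' d hd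
    rw [← hQ2]
    exact hQ Q (fun e => hne ((hQ1 u w).mp e))
  · -- two classes
    obtain ⟨hK, hdeg⟩ := hA
    refine Or.inr (Or.inr (Or.inr (Or.inr (Or.inl ?_))))
    have hne : Nonempty K := Fintype.card_pos_iff.mp (by omega)
    obtain ⟨v0, -⟩ := h.sur (Classical.arbitrary K)
    have hd := hdeg (π v0)
    rw [h.deg] at hd
    unfold dgc at hd
    obtain ⟨⟨a, u⟩, hau, ⟨b, w⟩, hbw, hpair⟩ := Finset.one_lt_card.mp
      (lt_of_lt_of_le one_lt_two hd.ge)
    simp only [Finset.mem_filter, Finset.mem_univ, true_and] at hau hbw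
    have hcau : c a ≠ c u := by rw [hau.1]; exact hau.2.1.symm
    have hall : ∀ v, c v = c a ∨ c v = c u := by
      intro v
      by_contra hn
      push Not at hn
      have h3 : ({π v, π a, π u} : Finset K).card = 3 := by
        rw [Finset.card_eq_three]
        exact ⟨π v, π a, π u, fun k => hn.1 ((h.iff _ _).mp k), fun k => hn.2 ((h.iff _ _).mp k),
          fun k => hcau ((h.iff _ _).mp k), rfl⟩
      have h4 := Finset.card_le_univ ({π v, π a, π u} : Finset K)
      omega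
    refine ⟨a, u, b, w, by rw [hau.1, hbw.1], ?_, hcau, hau.2.2, hbw.2.2, ?_, hall⟩
    · rcases hall w with e | e
      · exact absurd (e.trans hau.1) hbw.2.1
      · exact e
    · rintro ⟨e1, e2⟩
      exact hpair (by rw [e1, e2])
  · -- three classes
    obtain ⟨hK, hm⟩ := hA
    refine Or.inr (Or.inr (Or.inr (Or.inr (Or.inr (Or.inl ?_)))))
    obtain ⟨x, y, z, hxy, hxz, hyz, huniv⟩ := Finset.card_eq_three.mp
      (show (Finset.univ : Finset K).card = 3 by rw [Finset.card_univ]; exact hK)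
    obtain ⟨a₁, b₁, ha1, hb1, -, e1⟩ := h.edge (x := x) (y := y) (by rw [hm x y hxy]; exact one_pos)
    obtain ⟨b₂, e₂, hb2, he2, -, e2⟩ := h.edge (x := y) (y := z) (by rw [hm y z hyz]; exact one_pos)
    obtain ⟨e₃, a₃, he3, ha3, -, e3⟩ := h.edge (x := z) (y := x)
      (by rw [hm z x hxz.symm]; exact one_pos)
    refine ⟨a₁, b₁, b₂, e₂, e₃, a₃, ?_, ?_, ?_, ?_, ?_, ?_, e1, e2, e3, ?_⟩
    · rw [← h.iff, ha3, ha1]
    · rw [← h.iff, hb2, hb1]
    · rw [← h.iff, he3, he2]
    · rw [Ne, ← h.iff, ha1, hb1]; exact hxy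
    · rw [Ne, ← h.iff, hb1, he2]; exact hyz
    · rw [Ne, ← h.iff, ha1, he2]; exact hxz
    · intro v
      have hv : π v ∈ (Finset.univ : Finset K) := Finset.mem_univ _
      rw [huniv] at hv
      simp only [Finset.mem_insert, Finset.mem_singleton] at hv
      rcases hv with e | e | e
      · left; rw [← h.iff, e, ha1]
      · right; left; rw [← h.iff, e, hb1]
      · right; right; rw [← h.iff, e, he2]
  · -- suppressing a class of degree two
    obtain ⟨hk, x, y, z, hdx, hyz, hxy, hxz, hyz0, hQ⟩ := hA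
    refine Or.inr (Or.inr (Or.inr (Or.inr (Or.inr (Or.inr (Or.inl ?_))))))
    obtain ⟨x₁, y', hx1, hy', hc1, e1⟩ := h.edge (x := x) (y := y) (by rw [hxy]; exact one_pos)
    obtain ⟨x₂, z', hx2, hz', hc2, e2⟩ := h.edge (x := x) (y := z) (by rw [hxz]; exact one_pos)
    have hcx : c x₁ = c x₂ := by rw [← h.iff, hx1, hx2]
    have hcy : c y' ≠ c x₁ := hc1.symm
    have hcz : c z' ≠ c x₁ := by rw [hcx]; exact hc2.symm
    have hcyz : c y' ≠ c z' := by rw [Ne, ← h.iff, hy', hz']; exact hyz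
    have hdeg : dgc G c x₁ = 2 := by rw [← h.deg, hx1]; exact hdx
    have ho := leave_two hdeg hcx.symm hcy hcz e1 e2 (fun k => hcyz (by rw [k]))
    have hnadj : ¬ G.Adj y' z' := by
      intro hadj
      have h1 := h.mu y' z' hcyz
      rw [hy', hz', hyz0] at h1
      have h2 : 0 < Pool.Agent.H52.MG.mu G c y' z' := by
        unfold Pool.Agent.H52.MG.mu
        refine Finset.card_pos.mpr ⟨(y', z'), ?_⟩
        exact Finset.mem_filter.mpr ⟨Finset.mem_univ _, rfl, rfl, hadj⟩
      omega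
    obtain ⟨j, hj⟩ : ∃ j, k = j + 1 := ⟨k - 1, by omega⟩
    refine ⟨j, x₁, x₂, y', z', hj, hcx, hcy, hcz, hcyz, e1, e2, ho, ?_⟩
    refine hRRED V G c x₁ x₂ y' z' j hcx hcy hcz hcyz e1 e2 ho hnadj ?_ (by rw [← hj]; exact hCnd)
    intro d hd hpt2 hdy hdz
    obtain ⟨Q, hQ1, hQ2, hQ3⟩ := h.factor' d hd
    rw [← hQ2]
    have := hQ Q (by rw [hQ3]; exact hpt2)
      (by rw [← hx1, ← hy']; exact (hQ1 _ _).mpr hdy)
      (by rw [← hx1, ← hz']; exact (hQ1 _ _).mpr hdz)
    rw [hj] at this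
    push_cast at this
    linarith
  · -- a chain
    obtain ⟨hk, a, b, e, f, hdb, hde, hab, hbe, hef, hae, hbf, haf⟩ := hA
    refine Or.inr (Or.inr (Or.inr (Or.inr (Or.inr (Or.inr (Or.inr ⟨hk, ?_⟩))))))
    obtain ⟨s, x, hs, hx, hcsx, e1⟩ := h.edge (x := a) (y := b) (by rw [hab]; exact one_pos)
    obtain ⟨x', y', hx', hy', hcxy, e2⟩ := h.edge (x := b) (y := e) (by rw [hbe]; exact one_pos)
    obtain ⟨y, t, hy, ht, hcyt, e3⟩ := h.edge (x := e) (y := f) (by rw [hef]; exact one_pos)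
    have cx : c x' = c x := by rw [← h.iff, hx', hx]
    have cy : c y' = c y := by rw [← h.iff, hy', hy]
    have xy : c x ≠ c y := by rw [← cx, ← cy]; exact hcxy
    have sy : c s ≠ c y := by rw [Ne, ← h.iff, hs, hy]; exact hae
    have tx : c t ≠ c x := by rw [Ne, ← h.iff, ht, hx]; exact hbf.symm
    have cst : c s ≠ c t := by rw [Ne, ← h.iff, hs, ht]; exact haf
    have hdx : dgc G c x = 2 := by rw [← h.deg, hx]; exact hdb
    have hdy : dgc G c y = 2 := by rw [← h.deg, hy]; exact hde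
    have hch : Chain G c s x x' y y' t :=
      { cx := cx
        cy := cy
        xy := xy
        sx := hcsx
        sy := sy
        tx := tx
        ty := hcyt.symm
        e1 := e1.symm
        e2 := e2
        e3 := e3
        oX := leave_two hdx cx hcsx (by rw [cy]; exact xy.symm) e1.symm e2
          (fun k => sy (by rw [k, cy]))
        oY := leave_two hdy cy hcyt.symm (by rw [cx]; exact xy) e3 e2.symm
          (fun k => tx (by rw [k, cx])) }
    rw [hk] at hCnd
    have := (hRCHN V G c s x x' y y' t hch).1 hCnd cst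
    exact ⟨s, x, x', y, y', t, hch, cst, this.1, this.2⟩

end Pool.Agent.H14.MG
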