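import Pool.Agent.H52.MG.Basic
import Pool.Agent.H52.MG.Targets

/-!
# Module N2C: the class of degree two is replaced by a tetrahedron or an atom
-/

set_option autoImplicit false

noncomputable section

open Classical Module
open scoped Matrix

namespace Pool.Agent.H14.MG

open Pool.Agent.H52.MG

/-- evaluation of screws at a point as a linear map -/
def evL (x : Vec) : Scr →ₗ[ℝ] Vec where
  toFun S := ev S x
  map_add' S T := ev_add S T x
  map_smul' r S := ev_smul r S x

lemma evL_apply (x : Vec) (S : Scr) : evL x S = ev S x := rfl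

lemma dsq_isom (L : Matrix (Fin 3) (Fin 3) ℝ) (hL : Orth L) (t x y : Vec) :
    dsq (L *ᵥ x + t) (L *ᵥ y + t) = dsq x y := by
  unfold dsq
  have h1 : L *ᵥ x + t - (L *ᵥ y + t) = L *ᵥ (x - y) := by
    rw [Matrix.mulVec_sub]; abel
  rw [h1, Matrix.dotProduct_mulVec, Matrix.vecMul_mulVec, hL, Matrix.vecMul_one]

/-- the bar condition for two points moving with the same screw -/
lemma bar_same (S : Scr) (x y : Vec) : (ev S x - ev S y) ⬝ᵥ (x - y) = 0 := by
  rw [ev_sub_ev, dotProduct_comm]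
  exact dot_cross_self _ _

section
variable {V : Type} [Fintype V]

set_option linter.unusedSectionVars false

/-- the data of the module -/
structure Dat (G : SimpleGraph V) (d : V → V) (a u b w : V) : Prop where
  ba : d b = d a
  ua : d u ≠ d a
  wa : d w ≠ d a
  uw : d u ≠ d w
  e1 : G.Adj a u
  e2 : G.Adj b w
  nuw : ¬ G.Adj u w
  o : ∀ v z, d v = d a → d z ≠ d a → G.Adj v z → (v = a ∧ z = u) ∨ (v = b ∧ z = w)

variable {G : SimpleGraph V} {d : V → V} {a u b w : V}

lemma Dat.au (h : Dat G d a u b w) : a ≠ u := fun e => h.ua (by rw [e])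
lemma Dat.aw (h : Dat G d a u b w) : a ≠ w := fun e => h.wa (by rw [e])
lemma Dat.bu (h : Dat G d a u b w) : b ≠ u := fun e => h.ua (by rw [← e, h.ba])
lemma Dat.bw (h : Dat G d a u b w) : b ≠ w := fun e => h.wa (by rw [← e, h.ba])
lemma Dat.uw' (h : Dat G d a u b w) : u ≠ w := fun e => h.uw (by rw [e])

/-- step 0: if `a = b` then the class of `a` is `{a}` -/
lemma Dat.single (h : Dat G d a u b w) (hC : Conn4 (sq G)) (hpt : 6 ≤ pt d) (hab : a = b) :
    ∀ v, d v = d a → v = a := by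
  by_contra hc
  push Not at hc
  obtain ⟨v, hv, hva⟩ := hc
  have hB : ∃ z, d z ≠ d a ∧ z ≠ u ∧ z ≠ w := by
    by_contra hn
    push Not at hn
    have hsub : Finset.univ.image d ⊆ {d a, d u, d w} := by
      intro l hl
      rw [Finset.mem_image] at hl
      obtain ⟨z, -, rfl⟩ := hl
      by_cases h1 : d z = d a
      · simp [h1]
      · by_cases h2 : z = u
        · simp [h2]
        · have := hn z h1 h2
          simp [this]
    have h3 := Finset.card_le_card hsub
    have h4 : ({d a, d u, d w} : Finset V).card ≤ 3 := Finset.card_le_three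
    unfold pt at hpt
    omega
  obtain ⟨z0, hz0, hz0u, hz0w⟩ := hB
  obtain ⟨α, hα, β, hβ, hadj⟩ := hC {a, u, w} {v | d v = d a ∧ v ≠ a}
    {z | d z ≠ d a ∧ z ≠ u ∧ z ≠ w}
    (by
      intro x
      by_cases h1 : d x = d a
      · by_cases h2 : x = a
        · left; simp [h2]
        · right; left; exact ⟨h1, h2⟩
      · by_cases h2 : x = u
        · left; simp [h2]
        · by_cases h3 : x = w
          · left; simp [h3]
          · right; right; exact ⟨h1, h2, h3⟩)
    (by
      rw [Set.disjoint_left]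
      rintro x ⟨h1, -⟩ ⟨h2, -⟩
      exact h2 h1)
    (by
      rw [Set.disjoint_left]
      rintro x hx ⟨h1, h2⟩
      simp only [Set.mem_insert_iff, Set.mem_singleton_iff] at hx
      rcases hx with rfl | rfl | rfl
      · exact h2 rfl
      · exact h.ua h1
      · exact h.wa h1)
    (by
      rw [Set.disjoint_left]
      rintro x hx ⟨h1, h2, h3⟩
      simp only [Set.mem_insert_iff, Set.mem_singleton_iff] at hx
      rcases hx with rfl | rfl | rfl
      · exact h1 rfl
      · exact h2 rfl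
      · exact h3 rfl)
    ⟨v, hv, hva⟩ ⟨z0, hz0, hz0u, hz0w⟩
    (by
      refine (Set.ncard_insert_le _ _).trans ?_
      have h1 : ({u, w} : Set V).ncard ≤ 1 + 1 :=
        (Set.ncard_insert_le _ _).trans (by rw [Set.ncard_singleton])
      omega)
  obtain ⟨hα1, hα2⟩ := hα
  obtain ⟨hβ1, hβ2, hβ3⟩ := hβ
  obtain ⟨-, hadj | ⟨z, hz1, hz2⟩⟩ := hadj
  · rcases h.o α β hα1 hβ1 hadj with ⟨e, -⟩ | ⟨e, -⟩
    · exact hα2 e
    · exact hα2 (e.trans hab.symm)
  · by_cases hz : d z = d a
    · rcases h.o z β hz hβ1 hz2 with ⟨-, e⟩ | ⟨-, e⟩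
      · exact hβ2 e
      · exact hβ3 e
    · rcases h.o α z hα1 hz hz1 with ⟨e, -⟩ | ⟨e, -⟩
      · exact hα2 e
      · exact hα2 (e.trans hab.symm)

/-- the remaining atoms -/
abbrev VV (d : V → V) (a b : V) : Type := {z : V // d z ≠ d a ∨ z = a ∨ z = b}

/-- the new graph -/
def HH (G : SimpleGraph V) (d : V → V) (a u b w : V) : SimpleGraph (VV d a b) where
  Adj x y := (sq G).Adj x.1 y.1 ∨ (x ≠ y ∧ (x.1 = a ∨ x.1 = b ∨ x.1 = u ∨ x.1 = w) ∧
    (y.1 = a ∨ y.1 = b ∨ y.1 = u ∨ y.1 = w))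
  symm := ⟨fun _ _ h => h.elim (fun k => Or.inl k.symm) (fun k => Or.inr ⟨k.1.symm, k.2.2, k.2.1⟩)⟩
  loopless := ⟨fun x h => h.elim (fun k => (sq G).loopless.1 _ k) (fun k => k.1 rfl)⟩

/-- step 1: the new graph is globally rigid -/
lemma Dat.gr (h : Dat G d a u b w) (hISO : T_ISO) (p : V → Vec) (hG : GR (sq G) p) :
    GR (HH G d a u b w) (fun z => p z.1) := by
  intro q' hq'
  have hC : Cgr {x : VV d a b | x.1 = a ∨ x.1 = b ∨ x.1 = u ∨ x.1 = w} (fun z => p z.1) q' := by
    intro x hx y hy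
    by_cases e : x = y
    · subst e; simp
    · exact hq' x y (Or.inr ⟨e, hx, hy⟩)
  obtain ⟨L, t, hL, hLt⟩ := hISO _ _ _ _ hC
  set q : V → Vec := fun z => if hz : d z ≠ d a ∨ z = a ∨ z = b then q' ⟨z, hz⟩
    else L *ᵥ p z + t with hq
  have q1 : ∀ z (hz : d z ≠ d a ∨ z = a ∨ z = b), q z = q' ⟨z, hz⟩ := by
    intro z hz; rw [hq]; simp only; rw [dif_pos hz]
  have q2 : ∀ z, ¬ (d z ≠ d a ∨ z = a ∨ z = b) → q z = L *ᵥ p z + t := by
    intro z hz; rw [hq]; simp only; rw [dif_neg hz]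
  have q3 : ∀ z, d z = d a ∨ z = u ∨ z = w → q z = L *ᵥ p z + t := by
    intro z hz
    by_cases hz' : d z ≠ d a ∨ z = a ∨ z = b
    · rw [q1 z hz']
      refine hLt ⟨z, hz'⟩ ?_
      show z = a ∨ z = b ∨ z = u ∨ z = w
      tauto
    · exact q2 z hz'
  have key : ∀ x y, (sq G).Adj x y → ¬ (d x ≠ d a ∨ x = a ∨ x = b) →
      (d y = d a ∨ y = u ∨ y = w) := by
    intro x y hxy hx
    push Not at hx
    obtain ⟨hx1, hx2, hx3⟩ := hx
    by_contra hy
    push Not at hy
    obtain ⟨hy1, hy2, hy3⟩ := hy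
    obtain ⟨-, hadj | ⟨z, hz1, hz2⟩⟩ := hxy
    · rcases h.o x y hx1 hy1 hadj with ⟨e, -⟩ | ⟨e, -⟩
      · exact hx2 e
      · exact hx3 e
    · by_cases hz : d z = d a
      · rcases h.o z y hz hy1 hz2 with ⟨-, e⟩ | ⟨-, e⟩
        · exact hy2 e
        · exact hy3 e
      · rcases h.o x z hx1 hz hz1 with ⟨e, -⟩ | ⟨e, -⟩
        · exact hx2 e
        · exact hx3 e
  have hE : Eqv (sq G) p q := by
    intro x y hxy
    by_cases hx : d x ≠ d a ∨ x = a ∨ x = b
    · by_cases hy : d y ≠ d a ∨ y = a ∨ y = b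
      · rw [q1 x hx, q1 y hy]
        exact hq' ⟨x, hx⟩ ⟨y, hy⟩ (Or.inl hxy)
      · have hx' := key y x hxy.symm hy
        rw [q3 x hx', q2 y hy, dsq_isom L hL]
    · have hy' := key x y hxy hx
      rw [q2 x hx, q3 y hy', dsq_isom L hL]
  have hR := hG q hE
  intro x _ y _
  have := hR x.1 trivial y.1 trivial
  rw [q1 x.1 x.2, q1 y.1 y.2] at this
  exact this

/-- counting -/
lemma Dat.cr2_eq (h : Dat G d a u b w) :
    cr2 G d = cr2 (delS G (cls d a)) (mrg d u a) + 4 := by
  unfold cr2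
  have hm : ∀ v, mrg d u a v = if d v = d a then d u else d v := fun v => rfl
  have hcls : ∀ v, v ∈ cls d a ↔ d v = d a := fun v => Iff.rfl
  set F : Finset (V × V) := {(a, u), (u, a), (b, w), (w, b)} with hF
  have h4 : F.card = 4 := by
    rw [hF]
    have n1 := h.au
    have n2 := h.aw
    have n3 := h.bu
    have n4 := h.bw
    have n5 := h.uw'
    rw [Finset.card_insert_of_notMem, Finset.card_insert_of_notMem,
      Finset.card_insert_of_notMem, Finset.card_singleton]
    · simp only [Finset.mem_singleton, Prod.mk.injEq, not_and]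
      intro e; exact absurd e n4
    · simp only [Finset.mem_insert, Finset.mem_singleton, Prod.mk.injEq]
      rintro (⟨e, -⟩ | ⟨e, -⟩)
      · exact n3 e.symm
      · exact n5 e
    · simp only [Finset.mem_insert, Finset.mem_singleton, Prod.mk.injEq]
      rintro (⟨e, -⟩ | ⟨-, e⟩ | ⟨e, -⟩)
      · exact n1 e
      · exact n5 e
      · exact n2 e
  rw [← h4, ← Finset.card_union_of_disjoint]
  · congr 1
    ext ⟨x, y⟩
    simp only [Finset.mem_filter, Finset.mem_univ, true_and, Finset.mem_union, hF,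
      Finset.mem_insert, Finset.mem_singleton, Prod.mk.injEq]
    constructor
    · rintro ⟨hxy, hd⟩
      by_cases hx : d x = d a
      · right
        have hy : d y ≠ d a := fun e => hd (hx.trans e.symm)
        rcases h.o x y hx hy hxy with ⟨e1, e2⟩ | ⟨e1, e2⟩
        · left; exact ⟨e1, e2⟩
        · right; right; left; exact ⟨e1, e2⟩
      · by_cases hy : d y = d a
        · right
          rcases h.o y x hy hx hxy.symm with ⟨e1, e2⟩ | ⟨e1, e2⟩
          · right; left; exact ⟨e2, e1⟩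
          · right; right; right; exact ⟨e2, e1⟩
        · left
          refine ⟨⟨hxy, hx, hy⟩, ?_⟩
          rw [hm, hm, if_neg hx, if_neg hy]
          exact hd
    · rintro (⟨⟨hxy, hx, hy⟩, hd⟩ | ⟨e1, e2⟩ | ⟨e1, e2⟩ | ⟨e1, e2⟩ | ⟨e1, e2⟩)
      · have hx' : d x ≠ d a := hx
        have hy' : d y ≠ d a := hy
        rw [hm, hm, if_neg hx', if_neg hy'] at hd
        exact ⟨hxy, hd⟩
      · subst e1; subst e2; exact ⟨h.e1, h.ua.symm⟩
      · subst e1; subst e2; exact ⟨h.e1.symm, h.ua⟩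
      · subst e1; subst e2; exact ⟨h.e2, by rw [h.ba]; exact h.wa.symm⟩
      · subst e1; subst e2; exact ⟨h.e2.symm, by rw [h.ba]; exact h.wa⟩
  · rw [Finset.disjoint_left]
    rintro ⟨x, y⟩ hxy hF'
    simp only [Finset.mem_filter, Finset.mem_univ, true_and] at hxy
    obtain ⟨⟨-, hx, hy⟩, -⟩ := hxy
    simp only [hF, Finset.mem_insert, Finset.mem_singleton, Prod.mk.injEq] at hF'
    rcases hF' with ⟨e1, e2⟩ | ⟨e1, e2⟩ | ⟨e1, e2⟩ | ⟨e1, e2⟩
    · exact hx (by rw [e1]; exact rfl)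
    · exact hy (by rw [e2]; exact rfl)
    · exact hx (by rw [e1]; exact h.ba)
    · exact hy (by rw [e2]; exact h.ba)

lemma Dat.pt_eq (h : Dat G d a u b w) : pt d = pt (mrg d u a) + 1 := by
  unfold pt
  have hm : ∀ v, mrg d u a v = if d v = d a then d u else d v := fun v => rfl
  have : Finset.univ.image d = insert (d a) (Finset.univ.image (mrg d u a)) := by
    ext l
    simp only [Finset.mem_insert, Finset.mem_image, Finset.mem_univ, true_and]
    constructor
    · rintro ⟨x, rfl⟩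
      by_cases hx : d x = d a
      · left; exact hx
      · right; exact ⟨x, by rw [hm, if_neg hx]⟩
    · rintro (rfl | ⟨x, rfl⟩)
      · exact ⟨a, rfl⟩
      · by_cases hx : d x = d a
        · exact ⟨u, by rw [hm, if_pos hx]⟩
        · exact ⟨x, by rw [hm, if_neg hx]⟩
  rw [this, Finset.card_insert_of_notMem]
  simp only [Finset.mem_image, Finset.mem_univ, true_and, not_exists]
  intro x hx
  rw [hm] at hx
  by_cases hx' : d x = d a
  · rw [if_pos hx'] at hx
    exact h.ua hx
  · rw [if_neg hx'] at hx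
    exact hx' hx

/-- the body with which an atom moves -/
def sg (a u b w : V) (z : V) : V := if z = a then u else if z = b then w else z

/-- the induced motion -/
def Phi (p : V → Vec) (a u b w : V) : (V → Scr) →ₗ[ℝ] (V → Vec) :=
  LinearMap.pi (fun z => (evL (p z)).comp (LinearMap.proj (sg a u b w z)))

lemma Phi_apply (p : V → Vec) (a u b w : V) (S : V → Scr) (z : V) :
    Phi p a u b w S z = ev (S (sg a u b w z)) (p z) := rfl

/-- the bar functional -/
def barL (p : V → Vec) (a u b w : V) (x y : V) : (V → Scr) →ₗ[ℝ] ℝ where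
  toFun S := (Phi p a u b w S x - Phi p a u b w S y) ⬝ᵥ (p x - p y)
  map_add' S T := by
    simp only [map_add, Pi.add_apply]
    rw [add_sub_add_comm, add_dotProduct]
  map_smul' r S := by
    simp only [map_smul, Pi.smul_apply, RingHom.id_apply]
    rw [← smul_sub, smul_dotProduct]

/-- the three conditions -/
def Lam (p : V → Vec) (a u b w : V) : (V → Scr) →ₗ[ℝ] (Fin 3 → ℝ) :=
  if a = b then (evL (p a)).comp ((LinearMap.proj u : (V → Scr) →ₗ[ℝ] Scr) -
    (LinearMap.proj w : (V → Scr) →ₗ[ℝ] Scr))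
  else LinearMap.pi (fun i : Fin 3 => if i = 0 then barL p a u b w a b else
    if i = 1 then barL p a u b w a w else barL p a u b w b u)

/-- the atoms of closed neighbourhoods move with one screw -/
lemma Dat.star (h : Dat G d a u b w) {p : V → Vec} {S : V → Scr}
    (hS : S ∈ Mot (delS G (cls d a)) (mrg d u a) p) (hL : Lam p a u b w S = 0)
    (y x : V) (hy : d y ≠ d a) (hx : d x ≠ d a ∨ x = a ∨ x = b) (hxy : x = y ∨ G.Adj x y) :
    Phi p a u b w S x = ev (S y) (p x) := by
  have hba : b = a → ev (S u) (p a) = ev (S w) (p a) := by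
    intro e
    unfold Lam at hL
    rw [if_pos e.symm] at hL
    have : ev (S u - S w) (p a) = 0 := hL
    rw [ev_sub, sub_eq_zero] at this
    exact this
  have hsg : ∀ z, d z ≠ d a → sg a u b w z = z := by
    intro z hz
    unfold sg
    rw [if_neg (fun e => hz (by rw [e])), if_neg (fun e => hz (by rw [e, h.ba]))]
  rw [Phi_apply]
  by_cases hxa : d x = d a
  · -- leaving edge
    have hxy' : G.Adj x y := by
      rcases hxy with e | e
      · exact absurd (by rw [← e]; exact hxa) hy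
      · exact e
    rcases h.o x y hxa hy hxy' with ⟨e1, e2⟩ | ⟨e1, e2⟩
    · subst e1; subst e2
      unfold sg
      rw [if_pos rfl]
    · subst e1; subst e2
      unfold sg
      by_cases e : x = a
      · rw [if_pos e, e]
        exact hba e
      · rw [if_neg e, if_pos rfl]
  · rw [hsg x hxa]
    rcases hxy with e | e
    · rw [e]
    · exact (mem_Mot.mp hS).2 x y ⟨e, hxa, hy⟩


/-- the bars between the atoms `a`, `b`, `u`, `w` except `uw` -/
lemma Dat.bars (h : Dat G d a u b w) {p : V → Vec} {S : V → Scr}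
    (hS : S ∈ Mot (delS G (cls d a)) (mrg d u a) p) (hL : Lam p a u b w S = 0)
    (x y : V) (hxy : x ≠ y) (hx : x = a ∨ x = b ∨ x = u ∨ x = w)
    (hy : y = a ∨ y = b ∨ y = u ∨ y = w) (h1 : ¬ (x = u ∧ y = w)) (h2 : ¬ (x = w ∧ y = u)) :
    (Phi p a u b w S x - Phi p a u b w S y) ⬝ᵥ (p x - p y) = 0 := by
  -- symmetric form
  have sym : ∀ x y, (Phi p a u b w S x - Phi p a u b w S y) ⬝ᵥ (p x - p y) =
      (Phi p a u b w S y - Phi p a u b w S x) ⬝ᵥ (p y - p x) := by
    intro x y
    rw [← neg_sub (Phi p a u b w S y), ← neg_sub (p y), neg_dotProduct_neg]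
  -- the five bars
  have hau : (Phi p a u b w S a - Phi p a u b w S u) ⬝ᵥ (p a - p u) = 0 := by
    rw [h.star hS hL u a h.ua (Or.inr (Or.inl rfl)) (Or.inr h.e1),
      h.star hS hL u u h.ua (Or.inl h.ua) (Or.inl rfl)]
    exact bar_same _ _ _
  have hbw : (Phi p a u b w S b - Phi p a u b w S w) ⬝ᵥ (p b - p w) = 0 := by
    rw [h.star hS hL w b h.wa (Or.inr (Or.inr rfl)) (Or.inr h.e2),
      h.star hS hL w w h.wa (Or.inl h.wa) (Or.inl rfl)]
    exact bar_same _ _ _
  have hc : a ≠ b → (Phi p a u b w S a - Phi p a u b w S b) ⬝ᵥ (p a - p b) = 0 ∧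
      (Phi p a u b w S a - Phi p a u b w S w) ⬝ᵥ (p a - p w) = 0 ∧
      (Phi p a u b w S b - Phi p a u b w S u) ⬝ᵥ (p b - p u) = 0 := by
    intro e
    unfold Lam at hL
    rw [if_neg e] at hL
    refine ⟨?_, ?_, ?_⟩
    · have := congrFun hL 0
      have h2 : barL p a u b w a b S = 0 := by simpa using this
      exact h2
    · have := congrFun hL 1
      have h2 : barL p a u b w a w S = 0 := by simpa using this
      exact h2
    · have := congrFun hL 2
      have h2 : barL p a u b w b u S = 0 := by simpa using this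
      exact h2
  have haw : (Phi p a u b w S a - Phi p a u b w S w) ⬝ᵥ (p a - p w) = 0 := by
    by_cases e : a = b
    · have := hbw
      rw [← e] at this ⊢
      exact this
    · exact (hc e).2.1
  have hbu : (Phi p a u b w S b - Phi p a u b w S u) ⬝ᵥ (p b - p u) = 0 := by
    by_cases e : a = b
    · have := hau
      rw [e] at this ⊢
      exact this
    · exact (hc e).2.2
  rcases hx with rfl | rfl | rfl | rfl <;> rcases hy with rfl | rfl | rfl | rfl
  · exact absurd rfl hxy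
  · exact (hc hxy).1
  · exact hau
  · exact haw
  · rw [sym]; exact (hc (Ne.symm hxy)).1
  · exact absurd rfl hxy
  · exact hbu
  · exact hbw
  · rw [sym]; exact hau
  · rw [sym]; exact hbu
  · exact absurd rfl hxy
  · exact absurd ⟨rfl, rfl⟩ h1
  · rw [sym]; exact haw
  · rw [sym]; exact hbw
  · exact absurd ⟨rfl, rfl⟩ h2
  · exact absurd rfl hxy

/-- the restriction of the induced motion to the remaining atoms is an infinitesimal motion -/
lemma Dat.land (h : Dat G d a u b w) {p : V → Vec} {S : V → Scr}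
    (hS : S ∈ Mot (delS G (cls d a)) (mrg d u a) p) (hL : Lam p a u b w S = 0)
    (u' w' : VV d a b) (hu' : u'.1 = u) (hw' : w'.1 = w) :
    (fun z : VV d a b => Phi p a u b w S z.1) ∈
      infMot (delE (HH G d a u b w) u' w') (fun z => p z.1) := by
  rintro x y ⟨hxy, hn1, hn2⟩
  have hn1' : ¬ (x.1 = u ∧ y.1 = w) := fun k =>
    hn1 ⟨Subtype.ext (k.1.trans hu'.symm), Subtype.ext (k.2.trans hw'.symm)⟩
  have hn2' : ¬ (x.1 = w ∧ y.1 = u) := fun k =>
    hn2 ⟨Subtype.ext (k.1.trans hw'.symm), Subtype.ext (k.2.trans hu'.symm)⟩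
  show (Phi p a u b w S x.1 - Phi p a u b w S y.1) ⬝ᵥ (p x.1 - p y.1) = 0
  -- two atoms in a closed neighbourhood
  have key : ∀ z, d z ≠ d a → (x.1 = z ∨ G.Adj x.1 z) → (y.1 = z ∨ G.Adj y.1 z) →
      (Phi p a u b w S x.1 - Phi p a u b w S y.1) ⬝ᵥ (p x.1 - p y.1) = 0 := by
    intro z hz hx hy
    rw [h.star hS hL z x.1 hz x.2 hx, h.star hS hL z y.1 hz y.2 hy]
    exact bar_same _ _ _
  have out : ∀ v z, d z = d a → G.Adj v z → (d v ≠ d a ∨ v = a ∨ v = b) →
      (v = a ∨ v = b ∨ v = u ∨ v = w) := by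
    intro v z hz hv hv'
    by_cases hva : d v = d a
    · rcases hv' with e | e | e
      · exact absurd hva e
      · exact Or.inl e
      · exact Or.inr (Or.inl e)
    · rcases h.o z v hz hva hv.symm with ⟨-, e⟩ | ⟨-, e⟩
      · exact Or.inr (Or.inr (Or.inl e))
      · exact Or.inr (Or.inr (Or.inr e))
  rcases hxy with ⟨hne, hadj | ⟨z, hz1, hz2⟩⟩ | ⟨hne, hx, hy⟩
  · by_cases hy : d y.1 = d a
    · by_cases hx : d x.1 = d a
      · refine h.bars hS hL x.1 y.1 hne ?_ ?_ hn1' hn2'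
        · exact out x.1 y.1 hy hadj x.2
        · exact out y.1 x.1 hx hadj.symm y.2
      · exact key x.1 hx (Or.inl rfl) (Or.inr hadj.symm)
    · exact key y.1 hy (Or.inr hadj) (Or.inl rfl)
  · by_cases hz : d z = d a
    · refine h.bars hS hL x.1 y.1 hne ?_ ?_ hn1' hn2'
      · exact out x.1 z hz hz1 x.2
      · exact out y.1 z hz hz2.symm y.2
    · exact key z hz (Or.inr hz1) (Or.inr hz2.symm)
  · exact h.bars hS hL x.1 y.1 (fun e => hne (Subtype.ext e)) hx hy hn1' hn2'

/-- injectivity -/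
lemma Dat.inj (h : Dat G d a u b w) (hGP : T_GP) {p : V → Vec} (hp : Gen p) {S : V → Scr}
    (hS : S ∈ Mot (delS G (cls d a)) (mrg d u a) p) (hL : Lam p a u b w S = 0)
    (hBd : ∀ v, 3 ≤ (Bd G d v).ncard)
    (h0 : ∀ z : VV d a b, Phi p a u b w S z.1 = 0) : S = 0 := by
  have hm : ∀ v, mrg d u a v = if d v = d a then d u else d v := fun v => rfl
  have main : ∀ v, d v ≠ d a → S v = 0 := by
    intro v hv
    have hvan : ∀ x ∈ Bd G d v, ev (S v) (p x) = 0 := by
      intro x hx
      have hcl : ∀ y, d y = d v → S y = S v := by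
        intro y hy
        refine (mem_Mot.mp hS).1 y v ?_
        rw [hm, hm, if_neg hv, if_neg (by rw [hy]; exact hv), hy]
      rcases hx with hx | ⟨y, hxy, hy⟩
      · have hx' : d x ≠ d a := by rw [hx]; exact hv
        have h1 := h.star hS hL x x hx' (Or.inl hx') (Or.inl rfl)
        rw [h0 ⟨x, Or.inl hx'⟩, hcl x hx] at h1
        exact h1.symm
      · have hy' : d y ≠ d a := by rw [hy]; exact hv
        have hxV : d x ≠ d a ∨ x = a ∨ x = b := by
          by_cases hxa : d x = d a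
          · rcases h.o x y hxa hy' hxy with ⟨e, -⟩ | ⟨e, -⟩
            · exact Or.inr (Or.inl e)
            · exact Or.inr (Or.inr e)
          · exact Or.inl hxa
        have h1 := h.star hS hL y x hy' hxV (Or.inr hxy)
        rw [h0 ⟨x, hxV⟩, hcl y hy] at h1
        exact h1.symm
    have h3 := hBd v
    have hfin : (Bd G d v).Finite := Set.toFinite _
    obtain ⟨x, hx, y, hy, z, hz, hxy, hxz, hyz⟩ :
        ∃ x ∈ Bd G d v, ∃ y ∈ Bd G d v, ∃ z ∈ Bd G d v, x ≠ y ∧ x ≠ z ∧ y ≠ z := by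
      have h4 : 2 < (Bd G d v).ncard := h3
      exact (Set.two_lt_ncard_iff hfin).mp h4 |>.elim fun x h5 => h5.elim fun y h6 =>
        h6.elim fun z h7 => ⟨x, h7.1, y, h7.2.1, z, h7.2.2.1, h7.2.2.2.1, h7.2.2.2.2.1,
          h7.2.2.2.2.2⟩
    exact scr_three (S v) (p x) (p y) (p z) ((hGP V p hp).2.1 x y z hxy hxz hyz)
      (hvan x hx) (hvan y hy) (hvan z hz)
  funext v
  by_cases hv : d v = d a
  · have h1 : S v = S u := by
      refine (mem_Mot.mp hS).1 v u ?_
      rw [hm, hm, if_pos hv, if_neg h.ua]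
    rw [h1, main u h.ua]
    rfl
  · rw [main v hv]
    rfl

end

theorem n2c (hHEN : T_HEN) (hLB : T_LB) (hISO : T_ISO) (hGP : T_GP) : T_N2C := by
  intro V _ G d p a u b w hp hGR hC hNL hBd hpt hs2 hba hua hwa huw e1 e2 nuw ho
  have h : Dat G d a u b w := ⟨hba, hua, hwa, huw, e1, e2, nuw, ho⟩
  have hsing := h.single hC hpt
  set u' : VV d a b := ⟨u, Or.inl hua⟩ with hu'
  set w' : VV d a b := ⟨w, Or.inl hwa⟩ with hw'
  set a' : VV d a b := ⟨a, Or.inr (Or.inl rfl)⟩ with ha'
  set b' : VV d a b := ⟨b, Or.inr (Or.inr rfl)⟩ with hb'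
  -- genericity
  have hp' : Gen (fun z : VV d a b => p z.1) := by
    have := AlgebraicIndependent.comp hp (fun x : VV d a b × Fin 3 => (x.1.1, x.2))
      (by
        rintro ⟨x, i⟩ ⟨y, j⟩ e
        simp only [Prod.mk.injEq] at e
        exact Prod.ext (Subtype.ext e.1) e.2)
    exact this
  -- cardinality
  have hcard : 5 ≤ Fintype.card (VV d a b) := by
    have h1 : Finset.univ.image d ⊆ Finset.univ.image (fun z : VV d a b => d z.1) := by
      intro l hl
      rw [Finset.mem_image] at hl ⊢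
      obtain ⟨z, -, rfl⟩ := hl
      by_cases hz : d z = d a
      · exact ⟨a', Finset.mem_univ _, hz.symm⟩
      · exact ⟨⟨z, Or.inl hz⟩, Finset.mem_univ _, rfl⟩
    have h2 := Finset.card_le_card h1
    have h3 : (Finset.univ.image (fun z : VV d a b => d z.1)).card ≤
        Fintype.card (VV d a b) := Finset.card_image_le
    unfold pt at hpt
    omega
  -- the triangle
  have htri : ∃ x₁ x₂ x₃ : VV d a b, (delE (HH G d a u b w) u' w').Adj x₁ x₂ ∧
      (delE (HH G d a u b w) u' w').Adj x₁ x₃ ∧ (delE (HH G d a u b w) u' w').Adj x₂ x₃ := by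
    by_cases hab : a = b
    · have hz : ∃ z, G.Adj u z ∧ z ≠ a := by
        by_contra hn
        push Not at hn
        exact hua (hNL u a e1.symm hn)
      obtain ⟨z, hz1, hz2⟩ := hz
      have hz3 : z ≠ w := fun e => nuw (by rw [← e]; exact hz1)
      have hz4 : d z ≠ d a := fun e => hz2 (hsing hab z e)
      refine ⟨a', u', ⟨z, Or.inl hz4⟩, ⟨Or.inl ⟨h.au, Or.inl e1⟩, ?_, ?_⟩,
        ⟨Or.inl ⟨hz2.symm, Or.inr ⟨u, e1, hz1⟩⟩, ?_, ?_⟩,
        ⟨Or.inl ⟨hz1.ne, Or.inl hz1⟩, ?_, ?_⟩⟩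
      · rintro ⟨k, -⟩; exact h.au (congrArg Subtype.val k)
      · rintro ⟨k, -⟩; exact h.aw (congrArg Subtype.val k)
      · rintro ⟨k, -⟩; exact h.au (congrArg Subtype.val k)
      · rintro ⟨k, -⟩; exact h.aw (congrArg Subtype.val k)
      · rintro ⟨-, k⟩; exact hz3 (congrArg Subtype.val k)
      · rintro ⟨k, -⟩; exact h.uw' (congrArg Subtype.val k)
    · refine ⟨a', b', u', ⟨Or.inr ⟨fun k => hab (congrArg Subtype.val k), Or.inl rfl,
        Or.inr (Or.inl rfl)⟩, ?_, ?_⟩,
        ⟨Or.inr ⟨fun k => h.au (congrArg Subtype.val k), Or.inl rfl,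
        Or.inr (Or.inr (Or.inl rfl))⟩, ?_, ?_⟩,
        ⟨Or.inr ⟨fun k => h.bu (congrArg Subtype.val k), Or.inr (Or.inl rfl),
        Or.inr (Or.inr (Or.inl rfl))⟩, ?_, ?_⟩⟩
      · rintro ⟨k, -⟩; exact h.au (congrArg Subtype.val k)
      · rintro ⟨k, -⟩; exact h.aw (congrArg Subtype.val k)
      · rintro ⟨k, -⟩; exact h.au (congrArg Subtype.val k)
      · rintro ⟨k, -⟩; exact h.aw (congrArg Subtype.val k)
      · rintro ⟨k, -⟩; exact h.bu (congrArg Subtype.val k)
      · rintro ⟨k, -⟩; exact h.bw (congrArg Subtype.val k)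
  obtain ⟨x₁, x₂, x₃, t1, t2, t3⟩ := htri
  have hadj : (HH G d a u b w).Adj u' w' :=
    Or.inr ⟨fun k => h.uw' (congrArg Subtype.val k), Or.inr (Or.inr (Or.inl rfl)),
      Or.inr (Or.inr (Or.inr rfl))⟩
  have h6 := hHEN (VV d a b) (HH G d a u b w) (fun z => p z.1) u' w' x₁ x₂ x₃ hcard hp'
    (h.gr hISO p hGR) hadj t1 t2 t3
  -- the lower bound
  have h10 : 10 ≤ finrank ℝ (Mot (delS G (cls d a)) (mrg d u a) p) := by
    have hlb := hLB V (delS G (cls d a)) (mrg d u a) p
    have hc := h.cr2_eq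
    have hq := h.pt_eq
    unfold s2 at hs2
    have hc' : (cr2 G d : ℤ) = (cr2 (delS G (cls d a)) (mrg d u a) : ℤ) + 4 := by
      rw [hc]; push_cast; ring
    have hq' : (pt d : ℤ) = (pt (mrg d u a) : ℤ) + 1 := by
      rw [hq]; push_cast; ring
    omega
  set M := Mot (delS G (cls d a)) (mrg d u a) p with hM
  set Λ : M →ₗ[ℝ] (Fin 3 → ℝ) := (Lam p a u b w).domRestrict M with hΛ
  have hker : 7 ≤ finrank ℝ (LinearMap.ker Λ) := by
    have h1 := LinearMap.finrank_range_add_finrank_ker Λ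
    have h2 : finrank ℝ (LinearMap.range Λ) ≤ 3 := by
      refine (Submodule.finrank_le _).trans ?_
      simp
    omega
  -- the induced map
  set Ψ : LinearMap.ker Λ →ₗ[ℝ] (VV d a b → Vec) :=
    ((LinearMap.funLeft ℝ Vec (fun z : VV d a b => z.1)).comp (Phi p a u b w)).comp
      (M.subtype.comp (LinearMap.ker Λ).subtype) with hΨ
  have hΨa : ∀ S z, Ψ S z = Phi p a u b w S.1.1 z.1 := fun S z => rfl
  have hLS : ∀ S : LinearMap.ker Λ, Lam p a u b w S.1.1 = 0 := fun S => S.2
  have hinj : Function.Injective Ψ := by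
    intro S T hST
    have := h.inj hGP hp (M.sub_mem S.1.2 T.1.2) (by rw [map_sub, hLS S, hLS T, sub_zero]) hBd
      (fun z => by
        rw [map_sub, Pi.sub_apply, ← hΨa, ← hΨa, hST, sub_self])
    exact Subtype.ext (Subtype.ext (sub_eq_zero.mp this))
  have hrange : LinearMap.range Ψ ≤ infMot (delE (HH G d a u b w) u' w') (fun z => p z.1) := by
    rintro _ ⟨S, rfl⟩
    exact h.land S.1.2 (hLS S) u' w' rfl rfl
  have h7 := Submodule.finrank_mono hrange
  rw [LinearMap.finrank_range_of_inj hinj] at h7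
  omega

end Pool.Agent.H14.MG
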